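import Pool.Agent.Work.MP_080fe7_co.Assembly
import Pool.Agent.Work.MP_080fe7_co.PinFinal
import Pool.Agent.Work.MP_080fe7_co.Osc
import Pool.Agent.Work.MP_080fe7_co.Par
import Pool.Agent.Work.MP_080fe7_co.WedgeOne
import Pool.Agent.Work.MP_080fe7_co.WedgeTwo

/-!
# Classes with infinitely many simple permutations have unbounded principal Möbius function

The statement below uses the following definitions.

* `Pat` (file `Basic.lean`): a finite permutation, that is a length `n` together with an element
  of `Equiv.Perm (Fin n)`; `σ ≤ π` is pattern containment (a strictly increasing choice of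
  positions of `π` whose entries are in the same relative order as the entries of `σ`).
* `one`: the permutation of length one.
* `IncidenceAlgebra.mu ℤ one π`: the Möbius function `μ(1, π)` of Mathlib of the locally finite
  poset `Pat`; `mu a a = 1` and `mu a b = - ∑ x ∈ Ico a b, mu a x` for `a ≠ b`.
* `IsInterval`, `IsSimple` (file `Assembly.lean`): intervals and simple permutations, as in the
  problem file.
-/

namespace Pool.Agent.Results.MP_080fe7_co.InfinitelyManySimples

open Pool.Agent.Work.MP_080fe7_co

/-- Let `C` be a down-set of the poset of all finite permutations under pattern containment. If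
`C` contains infinitely many simple permutations, then `μ(1, ·)` is unbounded on `C`: for every
integer `c` there is a nonempty permutation `π` in `C` with `|μ(1, π)| > c`. -/
theorem result (C : Set Pat) (hC : IsLowerSet C) (hinf : {π | π ∈ C ∧ IsSimple π}.Infinite)
    (c : ℤ) : ∃ π ∈ C, one ≤ π ∧ c < |IncidenceAlgebra.mu ℤ one π| :=
  unbounded_of_families
    (fun c => by
      obtain ⟨K, hK⟩ := pins_unbounded osc_unbounded c
      exact ⟨K, fun P x y _ _ h => hK P x y h⟩)
    (fun c => by
      obtain ⟨K, hK⟩ := ParW.par_unbounded c
      exact ⟨K, fun P x y _ _ h => hK P x y h⟩)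
    (fun c => by
      obtain ⟨K, hK⟩ := t1_unbounded c
      exact ⟨K, fun P x y _ _ h => hK P x y h⟩)
    (fun c => by
      obtain ⟨K, hK⟩ := t2_unbounded c
      exact ⟨K, fun P x y _ _ h => hK P x y h⟩)
    C (fun π hπ σ hσ => hC hσ hπ) hinf c

end Pool.Agent.Results.MP_080fe7_co.InfinitelyManySimples
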